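import Mathlib
import Pool.Agent.H57R3.VJ.M

/-!
Truncated counting functions of hyperplane arrangements which are not split over the ground field (norm forms,
binary forms with conjugate zeros, ...): the rational points at which the truncated counting function is at most
`θ h + C` number `O(B ^ (θ + δ))`. For the arrangements of `r` hyperplanes, `n + 1 ≤ r ≤ 2 n + 1`, and
`θ = r - n - 1` these are the points violating Vojta's inequality.
-/

set_option autoImplicit false

open NumberField Height Finset LinearAlgebra.Projectivization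
open scoped Classical

namespace Pool.Agent.Results.MP_44a246_nt.ConjugateHyperplanes

open Pool.Agent.H57R3.VJ

/-- the `K`-points of height at most `B` off the hyperplanes (with coefficients in `L`) at which the truncated
counting function is at most `θ h + C` -/
def ExcK {K L : Type*} [Field K] [NumberField K] [Field L] [NumberField L] [Algebra K L] {n r : ℕ}
    (S : Finset (FinitePlace K)) (a : Fin r → Fin (n + 1) → L) (θ C B : ℝ) : Set (ℙ K (Fin (n + 1) → K)) :=
  {P | (∀ i, lin (a i) (up L P.rep) ≠ 0) ∧ P.mulHeight ≤ B ∧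
    N1K S a P.rep ≤ θ * Real.log P.mulHeight + C}

theorem result (K L : Type*) [Field K] [NumberField K] [Field L] [NumberField L] [Algebra K L] (n r : ℕ)
    (hr : n + 1 ≤ r) (a : Fin r → Fin (n + 1) → L)
    (ha : ∀ I : Finset (Fin r), I.card = n + 1 → LinearIndependent L (fun i : I => a i))
    (S : Finset (FinitePlace K)) (θ C δ : ℝ) (hθ : 0 ≤ θ) (hδ : 0 < δ) :
    ∃ M : ℝ, ∀ B : ℝ, 1 ≤ B →
      (ExcK S a θ C B).Finite ∧ ((ExcK S a θ C B).ncard : ℝ) ≤ M * B ^ (θ + δ) := by
  obtain ⟨M, hM⟩ := norm_count (K := K) (L := L) (a := a) ha hr S θ C hθ hδ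
  refine ⟨M, fun B hB => ?_⟩
  apply fin_of_bdd
  intro F hF
  apply hM B hB F
  intro P hP
  obtain ⟨g1, g2, g3⟩ := hF hP
  have e : P.mulHeight = mulHeight P.rep := by
    conv_lhs => rw [← P.mk_rep]
    rw [Projectivization.mulHeight_mk]
  rw [e] at g2 g3
  exact ⟨g1, g2, g3⟩

end Pool.Agent.Results.MP_44a246_nt.ConjugateHyperplanes
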