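import Pool.Agent.H951R3.U.U4
import Pool.Agent.H951R3.U.U5

set_option autoImplicit false

/-!
Products of lines: a lower bound for the error term in the conjecture with truncated counting
function, outside every proper closed subset.
-/

namespace Pool.Agent.Results.MP_44a246_nt.ErrorTermLowerBound

open Pool.Agent.H951R3 Finset Nat

/-- `h(x)` for a rational point `x` of `ℙ¹` other than `∞` -/
noncomputable def height (x : ℚ) : ℝ := Real.log (max x.num.natAbs x.den : ℕ)

/-- The value, at the primitive integer coordinates `(num : den)` of the `x i`, of the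
multihomogeneous form of multidegree `e` whose dehomogenisation is `F` -/
def formValue {k : ℕ} (F : MvPolynomial (Fin k) ℤ) (e : Fin k → ℕ) (x : Fin k → ℚ) : ℤ :=
  ∑ m ∈ F.support, F.coeff m * ∏ i, ((x i).num ^ (m i) * ((x i).den : ℤ) ^ (e i - m i))

/-- The value, at the primitive integer coordinates of the point `x` of `(ℙ¹)^k`, of the equation
of the divisor `D` which is the sum of the `3 k` fibres over `0, ∞, 1` of the projections and of
the divisor of multidegree `e` given by `F` -/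
def equationValue {k : ℕ} (F : MvPolynomial (Fin k) ℤ) (e : Fin k → ℕ) (x : Fin k → ℚ) : ℤ :=
  (∏ i, ((x i).num * (x i).den * ((x i).den - (x i).num))) * formValue F e x

/-- `N_S^(1)(D, x)`: the sum of `log p` over the primes `p ∉ S` modulo which `x` meets `D` -/
noncomputable def truncated {k : ℕ} (S : Finset ℕ) (F : MvPolynomial (Fin k) ℤ) (e : Fin k → ℕ)
    (x : Fin k → ℚ) : ℝ :=
  ∑ p ∈ (equationValue F e x).natAbs.primeFactors \ S, Real.log p

lemma formValue_cast {k : ℕ} (F : MvPolynomial (Fin k) ℤ) (e : Fin k → ℕ)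
    (he : ∀ i, F.degreeOf i ≤ e i) (x : Fin k → ℚ) :
    ((formValue F e x : ℤ) : ℂ) = (∏ i, ((x i).den : ℂ) ^ (e i)) *
      MvPolynomial.eval (fun i => (x i : ℂ)) (MvPolynomial.map (Int.castRingHom ℂ) F) := by
  classical
  rw [MvPolynomial.eval_map, MvPolynomial.eval₂_eq', mul_sum]
  unfold formValue
  rw [Int.cast_sum]
  refine sum_congr rfl fun m hm => ?_
  rw [Int.cast_mul, Int.cast_prod, mul_left_comm, ← prod_mul_distrib]
  congr 1
  refine prod_congr rfl fun i _ => ?_
  have h1 : m i ≤ e i := (MvPolynomial.monomial_le_degreeOf i hm).trans (he i)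
  have hd : ((x i).den : ℂ) ≠ 0 := by exact_mod_cast (x i).den_nz
  have h2 : (((x i).num : ℤ) : ℂ) = (x i : ℂ) * (x i).den := by
    rw [Rat.cast_def]
    field_simp
  push_cast
  rw [h2, mul_pow]
  obtain ⟨c, hc⟩ := Nat.exists_eq_add_of_le h1
  rw [hc, Nat.add_sub_cancel_left, pow_add]
  ring

lemma formValue_bound {k : ℕ} (F : MvPolynomial (Fin k) ℤ) (e : Fin k → ℕ)
    (he : ∀ i, F.degreeOf i ≤ e i) (x : Fin k → ℚ) :
    |((formValue F e x : ℤ) : ℝ)| ≤ (1 + ∑ m ∈ F.support, |((F.coeff m : ℤ) : ℝ)|) *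
      ∏ i, (((max (x i).num.natAbs (x i).den : ℕ) : ℝ)) ^ (e i) := by
  classical
  unfold formValue
  rw [Int.cast_sum]
  refine (abs_sum_le_sum_abs _ _).trans ?_
  have h1 : ∀ m ∈ F.support, |((F.coeff m * ∏ i, ((x i).num ^ (m i) *
      ((x i).den : ℤ) ^ (e i - m i)) : ℤ) : ℝ)| ≤ |((F.coeff m : ℤ) : ℝ)| *
      ∏ i, (((max (x i).num.natAbs (x i).den : ℕ) : ℝ)) ^ (e i) := by
    intro m hm
    rw [Int.cast_mul, abs_mul]
    refine mul_le_mul_of_nonneg_left ?_ (abs_nonneg _)
    rw [Int.cast_prod, abs_prod]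
    refine prod_le_prod (fun i _ => abs_nonneg _) fun i _ => ?_
    have h1 : m i ≤ e i := (MvPolynomial.monomial_le_degreeOf i hm).trans (he i)
    obtain ⟨c, hc⟩ := Nat.exists_eq_add_of_le h1
    rw [hc, Nat.add_sub_cancel_left, pow_add]
    push_cast
    rw [abs_mul, abs_pow, abs_pow]
    have h3 : |((x i).num : ℝ)| = (((x i).num.natAbs : ℕ) : ℝ) := by
      rw [Nat.cast_natAbs]; push_cast; rfl
    have h4 : |((x i).den : ℝ)| = (x i).den := abs_of_nonneg (by positivity)
    rw [h3, h4]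
    refine mul_le_mul ?_ ?_ (by positivity) (by positivity)
    · exact pow_le_pow_left₀ (by positivity) (le_max_left _ _) _
    · exact pow_le_pow_left₀ (by positivity) (le_max_right _ _) _
  refine (sum_le_sum h1).trans ?_
  rw [← sum_mul]
  refine mul_le_mul_of_nonneg_right (by linarith) (by positivity)

/-- **Main theorem.** -/
theorem result (k : ℕ) (hk : 1 ≤ k) (S : Finset ℕ) (F : MvPolynomial (Fin k) ℤ) (hF : F ≠ 0)
    (e : Fin k → ℕ) (he : ∀ i, F.degreeOf i ≤ e i) (G : MvPolynomial (Fin k) ℂ) (hG : G ≠ 0)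
    (κ : ℝ) (hκ : κ < ((k : ℝ) + 1) ^ 2 / (k : ℝ) ^ ((2 * (k : ℝ) + 1) / ((k : ℝ) + 1)))
    (B : ℝ) :
    ∃ x : Fin k → ℚ, equationValue F e x ≠ 0 ∧ MvPolynomial.eval (fun i => (x i : ℂ)) G ≠ 0 ∧
      B ≤ ∑ i, height (x i) ∧
      truncated S F e x + κ * (∑ i, height (x i)) ^ ((k : ℝ) / ((k : ℝ) + 1)) /
        Real.log (∑ i, height (x i)) ≤ ∑ i, ((e i : ℝ) + 1) * height (x i) := by
  classical
  have hkR : (1 : ℝ) ≤ k := by exact_mod_cast hk
  have hk0 : (0 : ℝ) < k := by linarith
  have hpow : (0 : ℝ) < (k : ℝ) ^ ((2 * (k : ℝ) + 1) / (k + 1)) := Real.rpow_pos_of_pos hk0 _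
  -- a slightly larger constant
  obtain ⟨κ', hκ'1, hκ'2⟩ : ∃ κ' : ℝ, max κ 0 < κ' ∧
      κ' < ((k : ℝ) + 1) ^ 2 / (k : ℝ) ^ ((2 * (k : ℝ) + 1) / ((k : ℝ) + 1)) :=
    exists_between (max_lt hκ (by positivity))
  have hκκ' : κ < κ' := (le_max_left _ _).trans_lt hκ'1
  have hκ'0 : 0 ≤ κ' := ((le_max_right _ _).trans_lt hκ'1).le
  have hκ'lt : κ' * (k : ℝ) ^ ((2 * k + 1 : ℝ) / (k + 1)) / (k + 1) ^ 2 < 1 := by
    rw [div_lt_one (by positivity), ← lt_div_iff₀ hpow]
    exact hκ'2
  set Cf : ℝ := 1 + ∑ m ∈ F.support, |((F.coeff m : ℤ) : ℝ)| with hCf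
  have hCf1 : 1 ≤ Cf := by
    have : (0 : ℝ) ≤ ∑ m ∈ F.support, |((F.coeff m : ℤ) : ℝ)| :=
      sum_nonneg fun m _ => abs_nonneg _
    linarith
  have hα : (0 : ℝ) < (k : ℝ) / (k + 1) := by positivity
  obtain ⟨B0, hB0⟩ := U.rpow_div_log_large hα (Real.log Cf / (κ' - κ))
  -- the polynomial to be avoided
  set FC : MvPolynomial (Fin k) ℂ := MvPolynomial.map (Int.castRingHom ℂ) F with hFC
  have hFC0 : FC ≠ 0 := by
    intro h0
    apply hF
    exact MvPolynomial.map_injective _ (Int.castRingHom ℂ).injective_int (by rw [← hFC, h0, map_zero])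
  obtain ⟨D, hD⟩ := U.main_fib (FC * G) (mul_ne_zero hFC0 hG)
  obtain ⟨y, t, L, A, hy, hA, hmod, hAD, hfin⟩ := U.main_num hk hκ'0 hκ'lt D (max B B0)
  obtain ⟨x, r, hr0, hx0, hx1, hQ, hL, hprime, hgain⟩ := hD y t L A hy hA hmod hAD
  rw [map_mul] at hQ
  have hFx := left_ne_zero_of_mul hQ
  have hGx := right_ne_zero_of_mul hQ
  have hheight : ∀ i, height (x i) = Real.log (max (x i).num.natAbs (x i).den : ℕ) := fun i => rfl
  set θ : ℝ := ∑ p ∈ primesLE y, Real.log p with hθ
  have hθ0 : 0 ≤ θ := sum_nonneg fun p _ => Real.log_natCast_nonneg p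
  have hr0' : 0 ≤ ∑ i, Real.log (r i) := sum_nonneg fun i _ => Real.log_natCast_nonneg _
  have hsumL : ∑ i, height (x i) ≤ k * L := by
    refine (sum_le_sum fun i _ => hL i).trans (le_of_eq ?_)
    rw [sum_const, Finset.card_univ, Fintype.card_fin, nsmul_eq_mul]
  have hsumgain : (θ + ∑ i, Real.log (r i)) + k * (t * Real.log 2) ≤
      ∑ i, height (x i) + θ := by
    have h1 := sum_le_sum fun i (_ : i ∈ univ) => hgain i
    rw [sum_add_distrib, sum_const, Finset.card_univ, Fintype.card_fin, nsmul_eq_mul] at h1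
    have h2 : ∑ i, height (x i) =
      ∑ i, Real.log (max (x i).num.natAbs (x i).den : ℕ) := rfl
    rw [h2]
    linarith
  obtain ⟨hBh, hmain⟩ := hfin (∑ i, height (x i)) (θ + ∑ i, Real.log (r i)) (by linarith) hsumL
    hsumgain
  -- nonvanishing
  have hform : formValue F e x ≠ 0 := by
    intro h0
    have h1 := formValue_cast F e he x
    rw [h0, Int.cast_zero] at h1
    refine mul_ne_zero (prod_ne_zero_iff.mpr fun i _ => ?_) hFx h1.symm
    exact pow_ne_zero _ (by exact_mod_cast (x i).den_nz)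
  have hnumlt : ∀ i, (x i).num < (x i).den := fun i => Rat.num_lt_denom_iff.mpr (hx1 i)
  have hnumpos : ∀ i, 0 < (x i).num := fun i => Rat.num_pos.mpr (hx0 i)
  have hfib : ∀ i, (x i).num * (x i).den * ((x i).den - (x i).num) ≠ 0 := by
    intro i
    have h1 := hnumlt i
    have h2 := hnumpos i
    have h3 : (0 : ℤ) < (x i).den := by exact_mod_cast (x i).den_pos
    refine mul_ne_zero (mul_ne_zero h2.ne' h3.ne') ?_
    linarith
  have hprod0 : (∏ i, ((x i).num * (x i).den * ((x i).den - (x i).num)) : ℤ) ≠ 0 :=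
    prod_ne_zero_iff.mpr fun i _ => hfib i
  refine ⟨x, mul_ne_zero hprod0 hform, hGx, (le_max_left _ _).trans hBh, ?_⟩
  -- the truncated counting function
  have hR0 : (∏ i, r i) ≠ 0 := prod_ne_zero_iff.mpr fun i _ => hr0 i
  have htr : truncated S F e x ≤ θ + ∑ i, Real.log (r i) +
      Real.log |((formValue F e x : ℤ) : ℝ)| := by
    unfold truncated
    have hsub : (equationValue F e x).natAbs.primeFactors \ S ⊆
        primesLE y ∪ ((∏ i, r i).primeFactors ∪ (formValue F e x).natAbs.primeFactors) := by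
      intro p hp
      have hp1 := (mem_sdiff.mp hp).1
      have hpp := Nat.prime_of_mem_primeFactors hp1
      have hpd := Nat.dvd_of_mem_primeFactors hp1
      have hpZ : Prime (p : ℤ) := Nat.prime_iff_prime_int.mp hpp
      have hpd' : (p : ℤ) ∣ equationValue F e x := Int.natCast_dvd.mpr hpd
      unfold equationValue at hpd'
      rw [mem_union, mem_union]
      rcases hpZ.dvd_or_dvd hpd' with h | h
      · obtain ⟨i, _, hi⟩ := (Prime.dvd_finsetProd_iff hpZ _).mp h
        have h3 : p ∣ (x i).num.natAbs ∨ p ∣ (x i).den ∨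
            p ∣ (((x i).den : ℤ) - (x i).num).natAbs := by
          rcases hpZ.dvd_or_dvd hi with h1 | h1
          · rcases hpZ.dvd_or_dvd h1 with h2 | h2
            · exact Or.inl (Int.natCast_dvd.mp h2)
            · exact Or.inr (Or.inl (by exact_mod_cast h2))
          · exact Or.inr (Or.inr (Int.natCast_dvd.mp h1))
        rcases hprime i p hpp h3 with h4 | h4
        · exact Or.inl h4
        · refine Or.inr (Or.inl (Nat.mem_primeFactors.mpr ⟨hpp, ?_, hR0⟩))
          exact h4.trans (Finset.dvd_prod_of_mem r (mem_univ i))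
      · refine Or.inr (Or.inr (Nat.mem_primeFactors.mpr ⟨hpp, Int.natCast_dvd.mp h, ?_⟩))
        exact Int.natAbs_ne_zero.mpr hform
    have hnn : ∀ s : Finset ℕ, 0 ≤ ∑ p ∈ s, Real.log (p : ℝ) := fun s =>
      sum_nonneg fun p _ => Real.log_natCast_nonneg p
    have hunion : ∀ s s' : Finset ℕ, ∑ p ∈ s ∪ s', Real.log (p : ℝ) ≤
        ∑ p ∈ s, Real.log (p : ℝ) + ∑ p ∈ s', Real.log (p : ℝ) := by
      intro s s'
      rw [← sum_union_inter]
      have := hnn (s ∩ s')
      linarith
    have h1 := sum_le_sum_of_subset_of_nonneg hsub (f := fun p : ℕ => Real.log (p : ℝ))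
      fun p _ _ => Real.log_natCast_nonneg p
    have h2 := hunion (primesLE y) ((∏ i, r i).primeFactors ∪
      (formValue F e x).natAbs.primeFactors)
    have h3 := hunion ((∏ i, r i).primeFactors) ((formValue F e x).natAbs.primeFactors)
    have h4 := U.sum_log_primeFactors_le hR0
    have h5 := U.sum_log_primeFactors_le (Int.natAbs_ne_zero.mpr hform)
    have h6 : Real.log ((∏ i, r i : ℕ) : ℝ) = ∑ i, Real.log (r i) := by
      push_cast
      rw [Real.log_prod fun i _ => by exact_mod_cast hr0 i]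
    have h7 : (((formValue F e x).natAbs : ℕ) : ℝ) = |((formValue F e x : ℤ) : ℝ)| := by
      rw [Nat.cast_natAbs]; push_cast; rfl
    rw [h6] at h4
    rw [h7] at h5
    linarith
  have hformlog : Real.log |((formValue F e x : ℤ) : ℝ)| ≤
      Real.log Cf + ∑ i, (e i : ℝ) * height (x i) := by
    have h1 := formValue_bound F e he x
    have hmpos : ∀ i, (0 : ℝ) < ((max (x i).num.natAbs (x i).den : ℕ) : ℝ) := by
      intro i
      have : 0 < max (x i).num.natAbs (x i).den := lt_of_lt_of_le (x i).den_pos (le_max_right _ _)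
      exact_mod_cast this
    have h2 := Real.log_le_log (abs_pos.mpr (by exact_mod_cast hform)) h1
    rw [Real.log_mul (by positivity) (prod_ne_zero_iff.mpr fun i _ => pow_ne_zero _ (hmpos i).ne'),
      Real.log_prod fun i _ => pow_ne_zero _ (hmpos i).ne'] at h2
    refine h2.trans (le_of_eq ?_)
    congr 1
    refine sum_congr rfl fun i _ => ?_
    rw [Real.log_pow]
    rfl
  -- conclusion
  set h := ∑ i, height (x i) with hh
  have hlarge := hB0 h ((le_max_right _ _).trans hBh)
  rw [div_le_iff₀ (by linarith)] at hlarge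
  have hsplit : ∑ i, ((e i : ℝ) + 1) * height (x i) = ∑ i, (e i : ℝ) * height (x i) + h := by
    rw [hh, ← sum_add_distrib]
    exact sum_congr rfl fun i _ => by ring
  rw [hsplit, mul_div_assoc]
  have h8 : (κ' - κ) * (h ^ ((k : ℝ) / (k + 1)) / Real.log h) =
      κ' * (h ^ ((k : ℝ) / (k + 1)) / Real.log h) - κ * (h ^ ((k : ℝ) / (k + 1)) / Real.log h) := by
    ring
  linarith

end Pool.Agent.Results.MP_44a246_nt.ErrorTermLowerBound
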