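import Mathlib
import Pool.Agent.H951R3.V.V5

set_option autoImplicit false

namespace Pool.Agent.Results.MP_44a246_nt.ManyTermAbc

open NumberField IsDedekindDomain

/-- The local height at `v` of the point with homogeneous coordinates `x`, relative to the divisor
`x_1 ⋯ x_n = 0`. -/
noncomputable def localHeight {K : Type} [Field K] [NumberField K] {n : ℕ}
    (v : HeightOneSpectrum (𝓞 K)) (x : Fin n → K) : ℝ :=
  ∑ i, Real.log ((⨆ j, FinitePlace.mk v (x j)) / FinitePlace.mk v (x i))

/-- The truncated counting function relative to `x_1 ⋯ x_n = 0`, for `K`-rational points: the sum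
of `log N(v)` over the primes `v` outside `S` at which the local height is positive. -/
noncomputable def truncated {K : Type} [Field K] [NumberField K] {n : ℕ}
    (S : Set (HeightOneSpectrum (𝓞 K))) (x : Fin n → K) : ℝ :=
  ∑ᶠ v ∈ {v : HeightOneSpectrum (𝓞 K) | v ∉ S ∧ 0 < localHeight v x},
    Real.log (Ideal.absNorm v.asIdeal : ℝ)

/-- The `n`-term abc inequality over a number field `K` (the case `X : x_1 + ⋯ + x_n = 0`,
`D : x_1 ⋯ x_n = 0` of the truncated Vojta conjecture, `K`-rational points) holds outside the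
hyperplanes `∑_{i ∈ I} x_i = 0` and outside a sparse set. -/
theorem result :
    ∀ (K : Type) [Field K] [NumberField K] (S : Set (HeightOneSpectrum (𝓞 K))), S.Finite →
      ∀ n : ℕ, 3 ≤ n → ∀ θ c δ : ℝ, 0 ≤ θ → 0 < δ →
        ∃ C : ℝ, ∀ B : ℝ, 1 ≤ B →
          {P : Projectivization K (Fin n → K) | ∑ i, P.rep i = 0 ∧
            (∀ I : Finset (Fin n), I.Nonempty → I ≠ Finset.univ → ∑ i ∈ I, P.rep i ≠ 0) ∧
            P.mulHeight ≤ B ∧ truncated S P.rep ≤ θ * P.logHeight + c}.Finite ∧
          ({P : Projectivization K (Fin n → K) | ∑ i, P.rep i = 0 ∧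
            (∀ I : Finset (Fin n), I.Nonempty → I ≠ Finset.univ → ∑ i ∈ I, P.rep i ≠ 0) ∧
            P.mulHeight ≤ B ∧ truncated S P.rep ≤ θ * P.logHeight + c}.ncard : ℝ) ≤
            C * B ^ (θ * (1 - 1 / (n.choose (n / 2) : ℝ)) + δ) := by
  intro K _ _ S hS n hn θ c δ hθ hδ
  classical
  obtain ⟨m, rfl⟩ : ∃ m, n = m + 1 := ⟨n - 1, by omega⟩
  obtain ⟨C, hC, hmain⟩ := Pool.Agent.H951R3.V.main_count (K := K) m S hS (c := c) hθ hδ
  refine ⟨C, fun B hB => ?_⟩
  refine Pool.Agent.H951R3.V.ncard_le_of_finset _ _ (by positivity) fun E hE => ?_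
  have hinj : Function.Injective
      (fun P : Projectivization K (Fin (m + 1) → K) => P.rep) := by
    intro P Q h
    have h1 := P.mk_rep
    have h2 := Q.mk_rep
    simp only at h
    rw [← h1, ← h2]
    congr 1
  have hcard : (E.card : ℝ) =
      ((E.image fun P : Projectivization K (Fin (m + 1) → K) => P.rep).card : ℝ) := by
    rw [Finset.card_image_of_injective _ hinj]
  have hne : ∀ P ∈ E, ∀ i, P.rep i ≠ 0 := by
    intro P hP i
    have h := (hE hP).2.1 {i} (Finset.singleton_nonempty i) ?_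
    · simpa using h
    · intro h
      have h1 := congrArg Finset.card h
      rw [Finset.card_singleton, Finset.card_univ, Fintype.card_fin] at h1
      omega
  have hheight : ∀ P : Projectivization K (Fin (m + 1) → K),
      Height.logHeight P.rep = P.logHeight := by
    intro P
    conv_rhs => rw [← P.mk_rep]
    rfl
  rw [hcard]
  refine hmain B hB _ ?_ ?_ ?_ ?_ ?_ ?_
  · intro x hx
    obtain ⟨P, hP, rfl⟩ := Finset.mem_image.mp hx
    exact (hE hP).1
  · intro x hx
    obtain ⟨P, hP, rfl⟩ := Finset.mem_image.mp hx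
    exact (hE hP).2.1
  · intro x hx
    obtain ⟨P, hP, rfl⟩ := Finset.mem_image.mp hx
    exact hne P hP
  · intro x hx y hy t ht hxy
    obtain ⟨P, hP, rfl⟩ := Finset.mem_image.mp hx
    obtain ⟨Q, hQ, rfl⟩ := Finset.mem_image.mp hy
    have h : P = Q := by
      rw [← P.mk_rep, ← Q.mk_rep]
      rw [Projectivization.mk_eq_mk_iff']
      exact ⟨t, hxy.symm⟩
    rw [h]
  · intro x hx
    obtain ⟨P, hP, rfl⟩ := Finset.mem_image.mp hx
    rw [hheight, Projectivization.logHeight_eq_log_mulHeight]
    exact Real.log_le_log P.mulHeight_pos (hE hP).2.2.1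
  · intro x hx R hR
    obtain ⟨P, hP, rfl⟩ := Finset.mem_image.mp hx
    rw [hheight]
    refine le_trans ?_ (hE hP).2.2.2
    have hpos : ∀ (v : HeightOneSpectrum (𝓞 K)) (i : Fin (m + 1)),
        0 < FinitePlace.mk v (P.rep i) := fun v i => FinitePlace.pos_iff.mpr (hne P hP i)
    have hset : {v : HeightOneSpectrum (𝓞 K) | v ∉ S ∧ 0 < localHeight v P.rep} =
        {v : HeightOneSpectrum (𝓞 K) | v ∉ S ∧
          ∃ i j, FinitePlace.mk v (P.rep i) ≠ FinitePlace.mk v (P.rep j)} := by
      ext v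
      simp only [Set.mem_ofPred_eq]
      refine and_congr_right fun _ => ?_
      exact Pool.Agent.H951R3.V.sum_log_pos_iff _ (hpos v)
    have hfin : {v : HeightOneSpectrum (𝓞 K) | v ∉ S ∧ 0 < localHeight v P.rep}.Finite := by
      rw [hset]
      exact (Pool.Agent.H951R3.V.neq_finite P.rep (hne P hP)).subset fun v hv => hv.2
    unfold truncated
    rw [finsum_mem_eq_finite_toFinset_sum _ hfin]
    refine Finset.sum_le_sum_of_subset_of_nonneg ?_ fun v _ _ => ?_
    · intro v hv
      rw [Set.Finite.mem_toFinset, hset]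
      exact hR v hv
    · exact (Pool.Agent.H951R3.V.ell_pos v).le

end Pool.Agent.Results.MP_44a246_nt.ManyTermAbc
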